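import Mathlib
import Pool.Agent.H25.BRC

namespace Pool.Agent.Results.MP_2920eb_co.Gap

open Finset Classical

variable {V : Type} [Fintype V]

noncomputable def deg (G : SimpleGraph V) (v : V) : ℕ := (univ.filter (fun w => G.Adj v w)).card

/-- spectrum of the normalized Laplacian -/
def spec (G : SimpleGraph V) : Set ℝ :=
  {μ | ∃ f : V → ℝ, f ≠ 0 ∧
    ∀ v, f v - (∑ w ∈ univ.filter (fun w => G.Adj v w), f w) / deg G v = μ * f v}

/-- spectral gap from 1 -/
noncomputable def gap (G : SimpleGraph V) : ℝ := sInf {x | ∃ μ ∈ spec G, x = |μ - 1|}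

/-- connected, at least 3 vertices, minimum degree at least `d` -/
def InFam (d : ℕ) (G : SimpleGraph V) : Prop :=
  3 ≤ Fintype.card V ∧ G.Connected ∧ ∀ v, d ≤ deg G v

/-- incidence graph of an incidence relation -/
def inc {P B : Type} (I : P → B → Prop) : SimpleGraph (P ⊕ B) where
  Adj
    | .inl p, .inr b => I p b
    | .inr b, .inl p => I p b
    | _, _ => False
  symm := ⟨by rintro (_ | _) (_ | _) h <;> exact h⟩
  loopless := ⟨by rintro (_ | _) h <;> exact h⟩

/-- blocks have `k` points and two distinct points lie in exactly `l` blocks -/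
def IsDesign {P B : Type} [Fintype P] [Fintype B] (I : P → B → Prop) (k l : ℕ) : Prop :=
  (∀ b, (univ.filter (fun p => I p b)).card = k) ∧
    ∀ p q, p ≠ q → (univ.filter (fun b => I p b ∧ I q b)).card = l

section
variable {P B : Type} [Fintype P] [Fintype B] (I : P → B → Prop)

noncomputable def N (p : P) (b : B) : ℝ := if I p b then 1 else 0

lemma sum_inl (f : P ⊕ B → ℝ) (p : P) :
    ∑ w ∈ univ.filter (fun w => (inc I).Adj (.inl p) w), f w = ∑ b, N I p b * f (.inr b) := by
  rw [Finset.sum_filter, Fintype.sum_sum_type]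
  simp only [inc, N, if_false, sum_const_zero, zero_add, add_zero, ite_mul, one_mul, zero_mul]
  exact Finset.sum_congr rfl fun _ _ => by congr

lemma sum_inr (f : P ⊕ B → ℝ) (b : B) :
    ∑ w ∈ univ.filter (fun w => (inc I).Adj (.inr b) w), f w = ∑ p, N I p b * f (.inl p) := by
  rw [Finset.sum_filter, Fintype.sum_sum_type]
  simp only [inc, N, if_false, sum_const_zero, zero_add, add_zero, ite_mul, one_mul, zero_mul]
  exact Finset.sum_congr rfl fun _ _ => by congr

lemma deg_inl (p : P) : deg (inc I) (.inl p) = (univ.filter (fun b => I p b)).card := by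
  have := sum_inl I (fun _ => 1) p
  simp only [sum_const, nsmul_eq_mul, mul_one, N, sum_boole] at this
  exact_mod_cast this

lemma deg_inr (b : B) : deg (inc I) (.inr b) = (univ.filter (fun p => I p b)).card := by
  have := sum_inr I (fun _ => 1) b
  simp only [sum_const, nsmul_eq_mul, mul_one, N, sum_boole] at this
  exact_mod_cast this

lemma NN (p q : P) : ∑ b, N I p b * N I q b = (univ.filter (fun b => I p b ∧ I q b)).card := by
  rw [← Finset.sum_boole]
  apply Finset.sum_congr rfl
  intro b _
  by_cases h1 : I p b <;> by_cases h2 : I q b <;> simp [N, h1, h2]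

lemma gram (k l : ℝ) (h : ∀ p q, ∑ b, N I p b * N I q b = if p = q then k else l) (x : P → ℝ)
    (p : P) : ∑ b, N I p b * ∑ q, N I q b * x q = (k - l) * x p + l * ∑ q, x q := by
  simp_rw [Finset.mul_sum, ← mul_assoc]
  rw [Finset.sum_comm]
  simp_rw [← Finset.sum_mul, h]
  have : ∀ q, (if p = q then k else l) * x q = (if p = q then (k - l) * x p else 0) + l * x q := by
    intro q; split_ifs with h
    · subst h; ring
    · ring
  simp_rw [this]
  rw [Finset.sum_add_distrib, Finset.sum_ite_eq, if_pos (mem_univ _)]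

end

lemma gap_le (G : SimpleGraph V) (d : ℕ) (hd : 0 < d) (t : ℝ) (ht : 0 ≤ t) (f : V → ℝ)
    (hf : f ≠ 0) (h : ∀ v, ∑ w ∈ univ.filter (fun w => G.Adj v w), f w = t * f v)
    (hdeg : t = 0 ∨ ∀ v, deg G v = d) : gap G ≤ t / d := by
  apply csInf_le ⟨0, by rintro x ⟨μ, -, rfl⟩; exact abs_nonneg _⟩
  refine ⟨1 - t / d, ⟨f, hf, fun v => ?_⟩, ?_⟩
  · rw [h v]
    rcases hdeg with rfl | h2
    · simp
    · rw [h2]; ring
  · rw [show 1 - t / d - 1 = -(t / d) by ring, abs_neg, abs_of_nonneg (by positivity)]

lemma sq_ge {P : Type} [Fintype P] (q t : ℝ) (x : P → ℝ) (hx : x ≠ 0)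
    (h : ∀ p, q * x p + ∑ r, x r = t ^ 2 * x p) : q ≤ t ^ 2 := by
  by_cases hS : ∑ r, x r = 0
  · obtain ⟨p, hp⟩ := Function.ne_iff.1 hx
    have := h p
    rw [hS, add_zero] at this
    exact (mul_right_cancel₀ hp this).le
  · have := Finset.sum_congr rfl (fun p (_ : p ∈ univ) => h p)
    rw [Finset.sum_add_distrib, ← Finset.mul_sum, ← Finset.mul_sum, sum_const, nsmul_eq_mul,
      ← add_mul] at this
    have h2 := mul_right_cancel₀ hS this
    have : (0 : ℝ) ≤ (univ : Finset P).card := by positivity
    linarith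

open Configuration in
lemma plane_gram (P L : Type) [Fintype P] [Fintype L] [Membership P L] [ProjectivePlane P L]
    (p q : P) : (univ.filter (fun l : L => p ∈ l ∧ q ∈ l)).card =
      if p = q then ProjectivePlane.order P L + 1 else 1 := by
  split_ifs with h
  · subst h
    rw [← ProjectivePlane.lineCount_eq L p, lineCount, Nat.card_eq_fintype_card,
      Fintype.card_subtype]
    simp
  · obtain ⟨l, hl, hu⟩ := HasLines.existsUnique_line P L p q h
    rw [Finset.card_eq_one]
    exact ⟨l, by ext m; simpa using ⟨hu m, fun h => h ▸ hl⟩⟩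

open Configuration in
lemma plane_fam (P L : Type) [Fintype P] [Fintype L] [Membership P L] [ProjectivePlane P L] :
    InFam (ProjectivePlane.order P L + 1) (inc (fun (p : P) (l : L) => p ∈ l)) ∧
      √(ProjectivePlane.order P L) / (ProjectivePlane.order P L + 1) ≤
        gap (inc (fun (p : P) (l : L) => p ∈ l)) := by
  set q := ProjectivePlane.order P L with hq
  set I := fun (p : P) (l : L) => p ∈ l with hI
  have g1 := plane_gram P L
  have g2 : ∀ l m : L, (univ.filter (fun p : P => p ∈ l ∧ p ∈ m)).card =
      if l = m then q + 1 else 1 := by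
    intro l m
    split_ifs with h
    · subst h
      rw [← ProjectivePlane.pointCount_eq P l, pointCount, Nat.card_eq_fintype_card,
        Fintype.card_subtype]
      simp
    · obtain ⟨p, hl, hu⟩ := HasPoints.existsUnique_point P L l m h
      rw [Finset.card_eq_one]
      exact ⟨p, by ext m; simpa using ⟨hu m, fun h => h ▸ hl⟩⟩
  have hdeg : ∀ v, deg (inc I) v = q + 1 := by
    rintro (p | l)
    · rw [deg_inl]; simpa using g1 p p
    · rw [deg_inr]; simpa using g2 l l
  have hP : Fintype.card P = q ^ 2 + q + 1 := ProjectivePlane.card_points P L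
  have h1 : 1 < q := ProjectivePlane.one_lt_order P L
  obtain ⟨p0⟩ : Nonempty P := Fintype.card_pos_iff.1 (by omega)
  refine ⟨⟨?_, ?_, fun v => (hdeg v).ge⟩, ?_⟩
  · rw [Fintype.card_sum]; omega
  · have hr : ∀ p : P, (inc I).Reachable (.inl p0) (.inl p) := by
      intro p
      by_cases h : p0 = p
      · subst h; rfl
      · obtain ⟨l, hl, -⟩ := HasLines.existsUnique_line P L p0 p h
        exact (SimpleGraph.Adj.reachable (show (inc I).Adj (.inl p0) (.inr l) from hl.1)).trans
          (SimpleGraph.Adj.reachable (show (inc I).Adj (.inr l) (.inl p) from hl.2))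
    rw [SimpleGraph.connected_iff_exists_forall_reachable]
    refine ⟨.inl p0, ?_⟩
    rintro (p | l)
    · exact hr p
    · obtain ⟨p, hp⟩ := Finset.card_pos.1
        (show 0 < (univ.filter (fun p : P => p ∈ l ∧ p ∈ l)).card by rw [g2]; simp)
      exact (hr p).trans (SimpleGraph.Adj.reachable
        (show (inc I).Adj (.inl p) (.inr l) from (mem_filter.1 hp).2.1))
  · apply le_csInf
    · refine ⟨_, 0, ⟨fun _ => 1, fun h => by simpa using congrFun h (.inl p0), fun v => ?_⟩, rfl⟩
      have : (deg (inc I) v : ℝ) ≠ 0 := by rw [hdeg]; positivity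
      rw [sum_const, nsmul_eq_mul, mul_one]
      change 1 - (deg (inc I) v : ℝ) / _ = _
      rw [div_self this]; simp
    · rintro x ⟨μ, ⟨f, hf, h⟩, rfl⟩
      set t : ℝ := (1 - μ) * (q + 1) with ht
      have hq0 : (0 : ℝ) < q + 1 := by positivity
      have he : ∀ v, ∑ w ∈ univ.filter (fun w => (inc I).Adj v w), f w = t * f v := by
        intro v
        have := h v
        rw [hdeg] at this
        push_cast at this
        field_simp at this
        rw [ht]; linarith
      have e1 : ∀ p, ∑ b, N I p b * f (.inr b) = t * f (.inl p) := fun p => by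
        rw [← sum_inl, he]
      have e2 : ∀ b, ∑ p, N I p b * f (.inl p) = t * f (.inr b) := fun b => by
        rw [← sum_inr, he]
      have key : (q : ℝ) ≤ t ^ 2 := by
        by_cases hx : (fun p => f (.inl p)) = 0
        · apply sq_ge q t (fun b => f (.inr b))
          · intro hy
            apply hf
            funext v
            rcases v with p | b
            · exact congrFun hx p
            · exact congrFun hy b
          · intro b
            have := gram (fun (l : L) (p : P) => p ∈ l) (q + 1) 1
              (fun l m => by rw [NN, g2]; split_ifs <;> simp) (fun b => f (.inr b)) b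
            change ∑ p, N I p b * ∑ m, N I p m * f (.inr m) = _ at this
            simp_rw [e1, mul_left_comm _ t, ← Finset.mul_sum, e2] at this
            linarith
        · apply sq_ge q t _ hx
          intro p
          have := gram I (q + 1) 1
            (fun l m => by rw [NN, g1]; split_ifs <;> simp [hq]) (fun p => f (.inl p)) p
          simp_rw [e2, mul_left_comm _ t, ← Finset.mul_sum, e1] at this
          linarith
      rw [div_le_iff₀ hq0, Real.sqrt_le_left (by positivity), mul_pow, sq_abs]
      rw [ht] at key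
      nlinarith

open scoped LinearAlgebra.Projectivization in
lemma prime_fam (d : ℕ) (hd : d.Prime) : ∃ (V : Type) (_ : Fintype V) (G : SimpleGraph V),
    InFam (d + 1) G ∧ √d / (d + 1) ≤ gap G := by
  haveI : Fact d.Prime := ⟨hd⟩
  let P := ℙ (ZMod d) (Fin 3 → ZMod d)
  haveI : Fintype P := Fintype.ofFinite _
  have h1 := Configuration.ProjectivePlane.card_points P P
  have h2 := Projectivization.card_of_finrank (ZMod d) (Fin 3 → ZMod d) (n := 3) (by simp)
  rw [Nat.card_eq_fintype_card, h1] at h2
  simp [Finset.sum_range_succ] at h2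
  have h3 : Configuration.ProjectivePlane.order P P = d := by
    rcases lt_trichotomy (Configuration.ProjectivePlane.order P P) d with h | h | h
    · nlinarith
    · exact h
    · nlinarith
  have := plane_fam P P
  rw [h3] at this
  exact ⟨_, inferInstance, _, this⟩

lemma no_six {P B : Type} [Fintype P] [Fintype B] (I : P → B → Prop) (hP : Fintype.card P = 43)
    (hB : Fintype.card B = 43)
    (h : ∀ p q, (univ.filter (fun b => I p b ∧ I q b)).card = if p = q then 7 else 1) : False := by
  have e : P ≃ B := Fintype.equivOfCardEq (hP.trans hB.symm)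
  apply Pool.Agent.H25.BRC.no_six hP (fun p l => if I p (e l) then 1 else 0)
  intro p q
  rw [e.sum_comp (fun b => (if I p b then (1 : ℚ) else 0) * (if I q b then 1 else 0))]
  have : ∀ b, (if I p b then (1 : ℚ) else 0) * (if I q b then 1 else 0) =
      if I p b ∧ I q b then 1 else 0 := by
    intro b; by_cases h1 : I p b <;> by_cases h2 : I q b <;> simp [h1, h2]
  simp_rw [this]
  rw [Finset.sum_boole, h]
  split_ifs <;> simp

lemma ker {P B : Type} [Fintype P] [Fintype B] (M : P → B → ℝ)
    (h : Fintype.card P < Fintype.card B) : ∃ y : B → ℝ, y ≠ 0 ∧ ∀ p, ∑ b, M p b * y b = 0 := by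
  obtain ⟨y, hy, hy0⟩ := (Submodule.ne_bot_iff _).1 (LinearMap.ker_ne_bot_of_finrank_lt
    (f := Matrix.mulVecLin (Matrix.of M)) (by simpa using h))
  exact ⟨y, hy0, fun p => congrFun (LinearMap.mem_ker.1 hy) p⟩

lemma design_gap {P B : Type} [Fintype P] [Fintype B] (I : P → B → Prop) (l : ℕ)
    (hD : IsDesign I 7 l) (hF : InFam 7 (inc I)) : gap (inc I) ≤ √5 / 7 := by
  have z : ∀ f : P ⊕ B → ℝ, f ≠ 0 → (∀ p, ∑ b, N I p b * f (.inr b) = 0) →
      (∀ b, ∑ p, N I p b * f (.inl p) = 0) → gap (inc I) ≤ √5 / 7 := by
    intro f hf h1 h2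
    have := gap_le (inc I) 7 (by decide) 0 le_rfl f hf
      (by rintro (p | b)
          · rw [sum_inl, h1, zero_mul]
          · rw [sum_inr, h2, zero_mul]) (Or.inl rfl)
    exact this.trans (by rw [zero_div]; positivity)
  rcases lt_trichotomy (Fintype.card P) (Fintype.card B) with h | h | h
  · obtain ⟨y, hy, h1⟩ := ker (N I) h
    exact z (Sum.elim 0 y) (fun h => hy (funext fun b => congrFun h (.inr b))) h1 (by simp)
  swap
  · obtain ⟨y, hy, h1⟩ := ker (fun b p => N I p b) h
    exact z (Sum.elim y 0) (fun h => hy (funext fun b => congrFun h (.inl b))) (by simp) h1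
  have hr : ∀ p, (univ.filter (fun b => I p b)).card = 7 := by
    have h1 : ∑ p, (univ.filter (fun b => I p b)).card = ∑ _p : P, 7 := by
      refine (Finset.sum_card_bipartiteAbove_eq_sum_card_bipartiteBelow (r := I)).trans
        ((Finset.sum_congr rfl (fun b _ => hD.1 b)).trans ?_)
      simp [h]
    intro p
    exact ((Finset.sum_eq_sum_iff_of_le (fun p _ => by
      rw [← deg_inl]; exact hF.2.2 _)).1 h1.symm p (mem_univ _)).symm
  have hG : ∀ p q, (univ.filter (fun b => I p b ∧ I q b)).card = if p = q then 7 else l := by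
    intro p q
    split_ifs with h
    · subst h; simpa using hr p
    · exact hD.2 p q h
  have hN : ∀ p q, ∑ b, N I p b * N I q b = if p = q then (7 : ℝ) else l := by
    intro p q; rw [NN, hG]; split_ifs <;> simp
  have h2 : 1 < Fintype.card P := by
    have := hF.1; rw [Fintype.card_sum] at this; omega
  obtain ⟨p0, p1, hp⟩ := Fintype.exists_pair_of_one_lt_card h2
  have hl7 : l ≤ 7 := by
    rw [← hD.2 p0 p1 hp, ← hr p0]
    exact card_le_card (fun b hb => by simp at hb ⊢; exact hb.1)
  have hcount : (49 : ℝ) = (7 - l) + l * Fintype.card P := by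
    have := gram I 7 l hN (fun _ => 1) p0
    have c1 : ∀ b, ∑ q, N I q b = 7 := fun b => by simp [N, hD.1 b]
    have c2 : ∑ b, N I p0 b = 7 := by simp [N, hr p0]
    simp only [mul_one, c1, ← Finset.sum_mul, c2, sum_const, nsmul_eq_mul, card_univ] at this
    linarith
  have hl2 : 2 ≤ l := by
    by_contra hlt
    have : l = 0 ∨ l = 1 := by omega
    rcases this with rfl | rfl
    · norm_num at hcount
    · have : Fintype.card P = 43 := by
        have : (Fintype.card P : ℝ) = 43 := by push_cast at hcount; linarith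
        exact_mod_cast this
      exact no_six I this (h ▸ this) hG
  let x : P → ℝ := fun p => (if p = p0 then 1 else 0) - (if p = p1 then 1 else 0)
  have hx : ∑ p, x p = 0 := by simp [x]
  have hx0 : x ≠ 0 := fun h => by simpa [x, hp] using congrFun h p0
  by_cases hy : (fun b => ∑ q, N I q b * x q) = 0
  · exact z (Sum.elim x 0) (fun h => hx0 (funext fun b => congrFun h (.inl b))) (by simp)
      (fun b => congrFun hy b)
  · have hl : (0 : ℝ) ≤ 7 - l := by
      have : (l : ℝ) ≤ 7 := by exact_mod_cast hl7
      linarith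
    have := gap_le (inc I) 7 (by decide) (√(7 - l)) (Real.sqrt_nonneg _)
      (Sum.elim (fun p => √(7 - l) * x p) (fun b => ∑ q, N I q b * x q))
      (fun h => hy (funext fun b => congrFun h (.inr b)))
      (by rintro (p | b)
          · rw [sum_inl]
            simp only [Sum.elim_inr, Sum.elim_inl]
            rw [gram I 7 l hN, hx, ← mul_assoc, Real.mul_self_sqrt hl]; simp
          · rw [sum_inr]
            simp only [Sum.elim_inr, Sum.elim_inl, Finset.mul_sum]
            exact Finset.sum_congr rfl fun _ _ => by ring)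
      (Or.inr (by rintro (p | b)
                  · rw [deg_inl, hr]
                  · rw [deg_inr, hD.1]))
    refine this.trans ?_
    have : (2 : ℝ) ≤ l := by exact_mod_cast hl2
    push_cast
    gcongr
    linarith

theorem result :
    (∀ (P L : Type) [Fintype P] [Fintype L] [Membership P L] [Configuration.ProjectivePlane P L],
      Configuration.ProjectivePlane.order P L ≠ 6) ∧
    (∃ (V : Type) (_ : Fintype V) (G : SimpleGraph V), InFam 7 G ∧
      ∀ (P B : Type) [Fintype P] [Fintype B] (I : P → B → Prop) (l : ℕ),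
        IsDesign I 7 l → InFam 7 (inc I) → gap (inc I) < gap G) ∧
    (∀ d : ℕ, d.Prime → √(d - 2) / d < √d / ((d : ℝ) + 1) ∧
      ∃ (V : Type) (_ : Fintype V) (G : SimpleGraph V), InFam d G ∧ √d / (d + 1) ≤ gap G) := by
  have lt : ∀ d : ℕ, 2 ≤ d → √(d - 2) / d < √d / ((d : ℝ) + 1) := by
    intro d hd
    have h2 : (2 : ℝ) ≤ d := by exact_mod_cast hd
    rw [div_lt_div_iff₀ (by positivity) (by positivity)]
    apply lt_of_pow_lt_pow_left₀ 2 (by positivity)
    rw [mul_pow, mul_pow, Real.sq_sqrt (by linarith), Real.sq_sqrt (by linarith)]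
    nlinarith
  have fam : ∀ d : ℕ, d.Prime → ∃ (V : Type) (_ : Fintype V) (G : SimpleGraph V),
      InFam d G ∧ √d / (d + 1) ≤ gap G := by
    intro d hd
    obtain ⟨V, i, G, h1, h2⟩ := prime_fam d hd
    exact ⟨V, i, G, ⟨h1.1, h1.2.1, fun v => (Nat.le_succ d).trans (h1.2.2 v)⟩, h2⟩
  refine ⟨?_, ?_, fun d hd => ⟨lt d hd.two_le, fam d hd⟩⟩
  · intro P L _ _ _ _ h
    apply no_six (fun (p : P) (l : L) => p ∈ l)
    · rw [Configuration.ProjectivePlane.card_points P L, h]; norm_num
    · rw [Configuration.ProjectivePlane.card_lines P L, h]; norm_num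
    · intro p q
      rw [plane_gram, h]
  · obtain ⟨V, i, G, h1, h2⟩ := fam 7 (by norm_num)
    refine ⟨V, i, G, h1, fun P B _ _ I l hD hF => ?_⟩
    have h3 := lt 7 (by norm_num)
    have h4 := design_gap I l hD hF
    norm_num at h2 h3
    linarith

end Pool.Agent.Results.MP_2920eb_co.Gap
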